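import Pool.Agent.Helper82.DG3.Net
import Pool.Agent.Helper74.DG3.FDof
import Pool.Agent.Helper7.DG3.Rig

/-!
# Slope 1: every drawing of a frame and a net gives the interface `Net`
-/

set_option autoImplicit false

namespace Pool.Agent.Helper82.DG3

open Pool.Agent.Helper18.RAC
open Pool.Agent.Helper58.DG3

theorem inS_iff (D : ℕ) (x y : ℤ) : InS D (x, y) ↔ Pool.Agent.Helper7.DG3.S D x y := by
  unfold InS InL Pool.Agent.Helper7.DG3.S
  rw [Pool.Agent.Helper7.DG3.sg_iff]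
  unfold Pool.Agent.Helper7.DG3.Ty
  simp only [sub_zero]

theorem sk_swap {π : Par} (h3 : 3 ≤ π.D) (x y : ℕ) : Sk π x y ↔ Sk π y x := by
  unfold Sk
  rw [inS_iff, inS_iff]
  exact Pool.Agent.Helper7.DG3.S_swap h3

theorem sk_rig {π : Par} (h3 : 3 ≤ π.D) : Rig (Sk π) := by
  intro x' x y h0 h1 h2 hS' hS hno
  have key : ∀ p q : ℕ, Sk π p q ↔ Pool.Agent.Helper7.DG3.S π.D (p : ℤ) (q : ℤ) :=
    fun p q => inS_iff π.D p q
  obtain ⟨r1, r2, r3, r4, r5, ⟨v1, r6, r7, r8⟩, ⟨v2, r9, r10, r11⟩, ⟨v3, r12, r13, r14⟩,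
    v4, r15, r16, r17⟩ := Pool.Agent.Helper7.DG3.rig (D := π.D) h3 (x' := (x' : ℤ)) (x := (x : ℤ))
      (y := (y : ℤ)) (by omega) ((key x' y).1 hS') ((key x y).1 hS) (fun z g1 g2 g3 => by
        obtain ⟨z', rfl⟩ := Int.eq_ofNat_of_zero_le (by omega : 0 ≤ z)
        exact hno z' (by omega) (by omega) ((key z' y).2 g3))
  obtain ⟨w1, rfl⟩ := Int.eq_ofNat_of_zero_le (by omega : 0 ≤ v1)
  obtain ⟨w2, rfl⟩ := Int.eq_ofNat_of_zero_le (by omega : 0 ≤ v2)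
  obtain ⟨w3, rfl⟩ := Int.eq_ofNat_of_zero_le (by omega : 0 ≤ v3)
  obtain ⟨w4, rfl⟩ := Int.eq_ofNat_of_zero_le (by omega : 0 ≤ v4)
  have e1 : ((x' : ℤ) - 1) = ((x' - 1 : ℕ) : ℤ) := by omega
  have e2 : ((x' : ℤ) + 1) = ((x' + 1 : ℕ) : ℤ) := by omega
  have e3 : ((y : ℤ) - 1) = ((y - 1 : ℕ) : ℤ) := by omega
  have e4 : ((y : ℤ) + 1) = ((y + 1 : ℕ) : ℤ) := by omega
  rw [e1] at r2 r8
  rw [e2] at r3 r11
  rw [e3] at r4 r14
  rw [e4] at r5 r17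
  refine ⟨by omega, fun h4 => ⟨fun h5 => r2 ((key _ _).1 h5), w1, by omega, by omega,
      (key _ _).2 r8⟩, ⟨fun h5 => r3 ((key _ _).1 h5), w2, by omega, by omega,
      (key _ _).2 r11⟩, fun h4 => ⟨fun h5 => r4 ((key _ _).1 h5), w3, by omega, by omega,
      (key _ _).2 r14⟩, ⟨fun h5 => r5 ((key _ _).1 h5), w4, by omega, by omega,
      (key _ _).2 r17⟩⟩

theorem sk_rig' {π : Par} (h3 : 3 ≤ π.D) : Rig (fun x y => Sk π y x) := by
  have e : (fun x y => Sk π y x) = Sk π := by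
    funext x y
    exact propext (sk_swap h3 y x)
  rw [e]
  exact sk_rig h3

variable {V : Type*} {H : SimpleGraph V} {X Y : V → ℝ} {E F a b : ℝ} {κ : GX → V} {π : Par}

/-- every drawing of a frame and a net gives the interface -/
theorem _root_.Pool.Agent.Helper58.DG3.GDraw.toNet (h : GDraw H X Y E F a b κ π)
    (h3 : 3 ≤ π.D) : Net H X Y E F κ π :=
  net_of h h.fd (sk_rig h3) (sk_rig' h3) (sk_swap h3)

theorem _root_.Pool.Agent.Helper58.DG3.GDraw.net (h : GDraw H X Y E F a b κ π)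
    (h4 : 4 ≤ π.D) : Net H X Y E F κ π := h.toNet (by omega)

/-- all the vertices of the net lie in the cell `NE` -/
theorem _root_.Pool.Agent.Helper58.DG3.GDraw.F_NE (h : GDraw H X Y E F a b κ π)
    (h3 : 3 ≤ π.D) {x y : ℕ} (hx : (GN.F x y).ok π) :
    Pool.Agent.Helper82.DG.NE X Y (κ (.v (.F x y))) :=
  Pool.Agent.Helper82.DG3.F_NE h h.fd (sk_rig h3) (sk_rig' h3) x hx.1 (y + 1) y (by omega) hx.2.1
    hx.2.2.1 hx.2.2.2

end Pool.Agent.Helper82.DG3
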