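import Pool.Agent.Helper65.DG.Rect

/-!
# Rectangles whose sides are covered by edges, ends at the corners allowed

As `Helper65/DG/Rect.lean`, but the ends of the covering edges may be corners of the rectangle.
An edge with a point in the open rectangle ends in the open rectangle or in a corner of it, or it
is parallel to an axis.
-/

set_option autoImplicit false

namespace Pool.Agent.Helper82.DG3

open Pool.Agent.Helper18.RAC
open Pool.Agent.Helper82.DG (negX_draw)

variable {V : Type*}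

/-- an open rectangle whose sides are covered by edges; the ends of these edges may be corners -/
structure CRect (H : SimpleGraph V) (X Y : V → ℝ) (x1 x2 y1 y2 : ℝ) : Prop where
  hx : x1 < x2
  hy : y1 < y2
  l : ∃ p p', H.Adj p p' ∧ X p = x1 ∧ X p' = x1 ∧ Y p ≤ y1 ∧ y2 ≤ Y p'
  r : ∃ p p', H.Adj p p' ∧ X p = x2 ∧ X p' = x2 ∧ Y p ≤ y1 ∧ y2 ≤ Y p'
  b : ∃ p p', H.Adj p p' ∧ Y p = y1 ∧ Y p' = y1 ∧ X p ≤ x1 ∧ x2 ≤ X p'
  t : ∃ p p', H.Adj p p' ∧ Y p = y2 ∧ Y p' = y2 ∧ X p ≤ x1 ∧ x2 ≤ X p'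

theorem CRect.negX {H : SimpleGraph V} {X Y : V → ℝ} {x1 x2 y1 y2 : ℝ}
    (h : CRect H X Y x1 x2 y1 y2) : CRect H (fun v => -X v) Y (-x2) (-x1) y1 y2 where
  hx := by have := h.hx; linarith
  hy := h.hy
  l := by
    obtain ⟨p, p', h1, h2, h3, h4, h5⟩ := h.r
    exact ⟨p, p', h1, by rw [h2], by rw [h3], h4, h5⟩
  r := by
    obtain ⟨p, p', h1, h2, h3, h4, h5⟩ := h.l
    exact ⟨p, p', h1, by rw [h2], by rw [h3], h4, h5⟩
  b := by
    obtain ⟨p, p', h1, h2, h3, h4, h5⟩ := h.b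
    exact ⟨p', p, h1.symm, h3, h2, by linarith, by linarith⟩
  t := by
    obtain ⟨p, p', h1, h2, h3, h4, h5⟩ := h.t
    exact ⟨p', p, h1.symm, h3, h2, by linarith, by linarith⟩

theorem CRect.swap {H : SimpleGraph V} {X Y : V → ℝ} {x1 x2 y1 y2 : ℝ}
    (h : CRect H X Y x1 x2 y1 y2) : CRect H Y X y1 y2 x1 x2 where
  hx := h.hy
  hy := h.hx
  l := h.b
  r := h.t
  b := h.l
  t := h.r

/-- No exit through the side `X = x2`. -/
theorem CRect.no_exit {H : SimpleGraph V} {X Y : V → ℝ} {E F x1 x2 y1 y2 : ℝ}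
    (hd : ADraw H X Y E F) (hr : CRect H X Y x1 x2 y1 y2) {p p' : V} (hp : H.Adj p p')
    (hX : X p < X p') (hY : Y p < Y p') {τ : ℝ} (hτ0 : 0 < τ) (hτ1 : τ < 1)
    (h1 : (1 - τ) * X p + τ * X p' = x2) (h2 : y1 < (1 - τ) * Y p + τ * Y p')
    (h3 : (1 - τ) * Y p + τ * Y p' ≤ y2) : False := by
  obtain ⟨q, q', hq, hqx, hqx', hqy, hqy'⟩ := hr.r
  have hden : 0 < Y q' - Y q := by linarith [hr.hy]
  set y0 : ℝ := (1 - τ) * Y p + τ * Y p' with hy0
  rcases (h3.trans hqy').eq_or_lt with heq | hlt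
  · -- the edge passes through the vertex `q'`
    refine hd.vtx p p' q' hp ?_ ?_ τ hτ0.le hτ1.le (by rw [h1, hqx']) heq.symm
    · rintro rfl
      nlinarith
    · rintro rfl
      nlinarith
  · have key := hd.crs p p' q q' hp hq (by
      intro h4
      rw [Sym2.eq_iff] at h4
      rcases h4 with ⟨h4, h5⟩ | ⟨h4, h5⟩
      · rw [h4, h5, hqx, hqx'] at hX
        exact lt_irrefl _ hX
      · rw [h4, h5, hqx, hqx'] at hX
        exact lt_irrefl _ hX) τ ((y0 - Y q) / (Y q' - Y q)) hτ0 hτ1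
      (div_pos (by linarith) hden) ((div_lt_one hden).2 (by linarith)) (by
        rw [h1, hqx, hqx']
        ring) (by
        rw [← hy0]
        field_simp
        ring)
    rw [hqx, hqx', sub_self, mul_zero, mul_zero, zero_add] at key
    have h5 : 0 < F * ((Y p' - Y p) * (Y q' - Y q)) :=
      mul_pos hd.F_pos (mul_pos (by linarith) hden)
    linarith

/-- The case of an edge going up and to the right. -/
theorem CRect.through_pos {H : SimpleGraph V} {X Y : V → ℝ} {E F x1 x2 y1 y2 : ℝ}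
    (hd : ADraw H X Y E F) (hr : CRect H X Y x1 x2 y1 y2) {p p' : V} (hp : H.Adj p p')
    (hX : X p < X p') (hY : Y p < Y p') {s : ℝ}
    (hs0 : 0 ≤ s) (hs1 : s ≤ 1) (h1 : x1 < (1 - s) * X p + s * X p')
    (h2 : (1 - s) * X p + s * X p' < x2) (h3 : y1 < (1 - s) * Y p + s * Y p')
    (h4 : (1 - s) * Y p + s * Y p' < y2) :
    x1 < X p' ∧ X p' ≤ x2 ∧ y1 < Y p' ∧ Y p' ≤ y2 := by
  have hX1 : (1 - s) * X p + s * X p' ≤ X p' := by nlinarith
  have hY1 : (1 - s) * Y p + s * Y p' ≤ Y p' := by nlinarith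
  have hdx : 0 < X p' - X p := by linarith
  have hdy : 0 < Y p' - Y p := by linarith
  set a : ℝ := (x2 - X p) / (X p' - X p) with ha
  set c : ℝ := (y2 - Y p) / (Y p' - Y p) with hc
  have hax : (1 - a) * X p + a * X p' = x2 := by
    rw [ha]
    field_simp
    ring
  have hcy : (1 - c) * Y p + c * Y p' = y2 := by
    rw [hc]
    field_simp
    ring
  have hsa : s < a := by
    rw [ha, lt_div_iff₀ hdx]
    linarith
  have hsc : s < c := by
    rw [hc, lt_div_iff₀ hdy]
    linarith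
  have nox : a < 1 → a ≤ c → False := by
    intro h5 h6
    refine hr.no_exit hd hp hX hY (lt_of_le_of_lt hs0 hsa) h5 hax ?_ ?_
    · nlinarith
    · nlinarith
  have noy : c < 1 → c ≤ a → False := by
    intro h5 h6
    refine hr.swap.no_exit hd.swap hp hY hX (lt_of_le_of_lt hs0 hsc) h5 hcy ?_ ?_
    · nlinarith
    · nlinarith
  have hx2 : X p' ≤ x2 := by
    by_contra h5
    rw [not_le] at h5
    have ha1 : a < 1 := by
      rw [ha, div_lt_one hdx]
      linarith
    rcases le_total a c with h6 | h6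
    · exact nox ha1 h6
    · exact noy (lt_of_le_of_lt h6 ha1) h6
  have hy2 : Y p' ≤ y2 := by
    by_contra h5
    rw [not_le] at h5
    have hc1 : c < 1 := by
      rw [hc, div_lt_one hdy]
      linarith
    rcases le_total a c with h6 | h6
    · exact nox (lt_of_le_of_lt h6 hc1) h6
    · exact noy hc1 h6
  exact ⟨by linarith, hx2, by linarith, hy2⟩

/-- an edge with a point in the open rectangle ends in the closed rectangle or is parallel to an
axis -/
theorem CRect.through {H : SimpleGraph V} {X Y : V → ℝ} {E F x1 x2 y1 y2 : ℝ}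
    (hd : ADraw H X Y E F) (hr : CRect H X Y x1 x2 y1 y2) {p p' : V} (hp : H.Adj p p') {s : ℝ}
    (hs0 : 0 ≤ s) (hs1 : s ≤ 1) (h1 : x1 < (1 - s) * X p + s * X p')
    (h2 : (1 - s) * X p + s * X p' < x2) (h3 : y1 < (1 - s) * Y p + s * Y p')
    (h4 : (1 - s) * Y p + s * Y p' < y2) :
    (x1 ≤ X p' ∧ X p' ≤ x2 ∧ y1 ≤ Y p' ∧ Y p' ≤ y2) ∨ X p' = X p ∨ Y p' = Y p := by
  rcases lt_trichotomy (X p) (X p') with hX | hX | hX
  · rcases lt_trichotomy (Y p) (Y p') with hY | hY | hY
    · have := hr.through_pos hd hp hX hY hs0 hs1 h1 h2 h3 h4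
      exact Or.inl ⟨this.1.le, this.2.1, this.2.2.1.le, this.2.2.2⟩
    · exact Or.inr (Or.inr hY.symm)
    · -- up to the sign of `Y`
      have := (hr.swap.negX.swap).through_pos (negX_draw hd.swap).swap hp (s := s) hX
        (by linarith) hs0 hs1 h1 h2 (by linarith) (by linarith)
      exact Or.inl ⟨this.1.le, this.2.1, by linarith [this.2.2.2], by linarith [this.2.2.1]⟩
  · exact Or.inr (Or.inl hX.symm)
  · rcases lt_trichotomy (Y p) (Y p') with hY | hY | hY
    · have := (hr.negX).through_pos (negX_draw hd) hp (s := s) (by linarith)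
        hY hs0 hs1 (by linarith) (by linarith) h3 h4
      exact Or.inl ⟨by linarith [this.2.1], by linarith [this.1], this.2.2.1.le, this.2.2.2⟩
    · exact Or.inr (Or.inr hY.symm)
    · have := (hr.negX.swap.negX.swap).through_pos (negX_draw (negX_draw hd).swap).swap hp (s := s)
        (by linarith) (by linarith) hs0 hs1 (by linarith) (by linarith) (by linarith) (by linarith)
      exact Or.inl ⟨by linarith [this.2.1], by linarith [this.1], by linarith [this.2.2.2],
        by linarith [this.2.2.1]⟩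

/-- no vertex (with an edge) lies in the relative interior of the side `X = x2` -/
theorem CRect.side {H : SimpleGraph V} {X Y : V → ℝ} {E F x1 x2 y1 y2 : ℝ}
    (hd : ADraw H X Y E F) (hr : CRect H X Y x1 x2 y1 y2) {v : V} (h1 : X v = x2)
    (h2 : y1 < Y v) (h3 : Y v < y2) : False := by
  obtain ⟨q, q', hq, hqx, hqx', hqy, hqy'⟩ := hr.r
  have hden : 0 < Y q' - Y q := by linarith [hr.hy]
  refine hd.vtx q q' v hq ?_ ?_ ((Y v - Y q) / (Y q' - Y q)) (div_nonneg (by linarith) hden.le)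
      ((div_le_one hden).2 (by linarith)) ?_ ?_
  · rintro rfl
    linarith
  · rintro rfl
    linarith
  · rw [hqx, hqx', h1]
    ring
  · field_simp
    ring

/-- a vertex in the closed rectangle lies in the open rectangle or in a corner -/
theorem CRect.closed {H : SimpleGraph V} {X Y : V → ℝ} {E F x1 x2 y1 y2 : ℝ}
    (hd : ADraw H X Y E F) (hr : CRect H X Y x1 x2 y1 y2) {v : V} (h1 : x1 ≤ X v)
    (h2 : X v ≤ x2) (h3 : y1 ≤ Y v) (h4 : Y v ≤ y2) :
    (x1 < X v ∧ X v < x2 ∧ y1 < Y v ∧ Y v < y2) ∨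
      ((X v = x1 ∨ X v = x2) ∧ (Y v = y1 ∨ Y v = y2)) := by
  rcases h1.eq_or_lt with e1 | e1
  · rcases h3.eq_or_lt with e3 | e3
    · exact Or.inr ⟨Or.inl e1.symm, Or.inl e3.symm⟩
    · rcases h4.eq_or_lt with e4 | e4
      · exact Or.inr ⟨Or.inl e1.symm, Or.inr e4⟩
      · exact (hr.negX.side (negX_draw hd) (v := v) (by linarith) e3 e4).elim
  · rcases h2.eq_or_lt with e2 | e2
    · rcases h3.eq_or_lt with e3 | e3
      · exact Or.inr ⟨Or.inr e2, Or.inl e3.symm⟩
      · rcases h4.eq_or_lt with e4 | e4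
        · exact Or.inr ⟨Or.inr e2, Or.inr e4⟩
        · exact (hr.side hd (v := v) e2 e3 e4).elim
    · rcases h3.eq_or_lt with e3 | e3
      · exact ((hr.swap.negX).side (negX_draw hd.swap) (v := v) (by linarith) e1 e2).elim
      · rcases h4.eq_or_lt with e4 | e4
        · exact ((hr.swap).side hd.swap (v := v) e4 e1 e2).elim
        · exact Or.inl ⟨e1, e2, e3, e4⟩

/-- an edge with a point in the open rectangle ends in the open rectangle or in a corner, or it is
parallel to an axis -/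
theorem CRect.through' {H : SimpleGraph V} {X Y : V → ℝ} {E F x1 x2 y1 y2 : ℝ}
    (hd : ADraw H X Y E F) (hr : CRect H X Y x1 x2 y1 y2) {p p' : V} (hp : H.Adj p p') {s : ℝ}
    (hs0 : 0 ≤ s) (hs1 : s ≤ 1) (h1 : x1 < (1 - s) * X p + s * X p')
    (h2 : (1 - s) * X p + s * X p' < x2) (h3 : y1 < (1 - s) * Y p + s * Y p')
    (h4 : (1 - s) * Y p + s * Y p' < y2) :
    (x1 < X p' ∧ X p' < x2 ∧ y1 < Y p' ∧ Y p' < y2) ∨
      ((X p' = x1 ∨ X p' = x2) ∧ (Y p' = y1 ∨ Y p' = y2)) ∨ X p' = X p ∨ Y p' = Y p := by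
  rcases hr.through hd hp hs0 hs1 h1 h2 h3 h4 with ⟨e1, e2, e3, e4⟩ | e
  · rcases hr.closed hd e1 e2 e3 e4 with e | e
    · exact Or.inl e
    · exact Or.inr (Or.inl e)
  · exact Or.inr (Or.inr e)

end Pool.Agent.Helper82.DG3
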