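import Pool.Agent.Helper68.RAC1.Arith
import Pool.Agent.Helper82.DG.FinalD

/-!
# The rate: `n + O(n / log n)` edges

The parameters are `D = 144 e + 6`, `l = 2 e`, `M = 1000 (2 e + 1) fib (2 D + 2)` with `e` about a
constant times `log n`.
-/

set_option autoImplicit false

namespace Pool.Agent.Helper82.DG3

open Pool.Agent.Helper58.DG3 (Par GN)
open Pool.Agent.Helper18.RAC Pool.Agent.Helper68.RAC1

/-- the parameters number `e` -/
def pe (e : ℕ) : Par :=
  ⟨144 * e + 6, 2 * e, 1000 * (2 * e + 1) * Nat.fib (2 * (144 * e + 6) + 2)⟩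

theorem fib_le_two_pow (n : ℕ) : Nat.fib n ≤ 2 ^ n := by
  induction n using Nat.strong_induction_on with
  | _ n ih =>
    rcases n with _ | _ | n
    · simp
    · simp
    · rw [Nat.fib_add_two]
      have h1 := ih n (by omega)
      have h2 := ih (n + 1) (by omega)
      have h3 : 2 ^ (n + 2) = 2 * 2 ^ (n + 1) := by ring
      have h4 : 2 ^ n ≤ 2 ^ (n + 1) := Nat.pow_le_pow_right (by norm_num) (by omega)
      omega

theorem stA_card_le (π : Par) : (stA π).card ≤ (π.D + 1) * (π.M + 1) ^ 2 := by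
  classical
  unfold stA
  refine (Finset.card_filter_le _ _).trans ?_
  simp only [Finset.card_product, Finset.card_range]
  exact le_of_eq (by ring)

theorem netA_card_le (π : Par) : (netA π).card ≤ (π.M + 1) ^ 2 := by
  classical
  unfold netA
  refine (Finset.card_filter_le _ _).trans ?_
  simp only [Finset.card_product, Finset.card_range]
  exact le_of_eq (by ring)

theorem numB_le (π : Par) : numB π ≤ (badF π).card := by
  unfold numB
  rw [← Set.ncard_coe_finset]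
  exact Set.ncard_le_ncard (fun x hx => mem_badF hx.1 hx.2) (Finset.finite_toSet _)

theorem numG_eq (π : Par) : numG π = (stA π).card * (2 * π.l) := by
  rw [← card_goodF]
  unfold numG
  rw [← Set.ncard_coe_finset]
  congr 1
  ext x
  exact (mem_goodF π x).symm

theorem numA_le (π : Par) : numA π ≤ 32 * (π.D + 1) * (π.l + 1) * (π.M + 1) ^ 2 := by
  have h1 := numB_le π
  have h2 := card_badF π
  have h3 := stA_card_le π
  have h4 := netA_card_le π
  rw [numA_eq, numG_eq]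
  have h5 : (stA π).card * (2 * π.l) ≤ (π.D + 1) * (π.M + 1) ^ 2 * (2 * π.l) :=
    Nat.mul_le_mul_right _ h3
  nlinarith [Nat.zero_le (π.D * π.l * (π.M + 1) ^ 2), Nat.zero_le (π.l * (π.M + 1) ^ 2),
    Nat.zero_le (π.D * (π.M + 1) ^ 2), Nat.zero_le (π.M ^ 2), Nat.zero_le π.M]

/-- the size of the grid number `e` -/
theorem size_le (C₂ : ℕ) {e : ℕ} (he : 1 ≤ e) :
    e * (4 + (C₂ + 1) * numA (pe e)) ≤ (2 ^ (700 + C₂)) ^ e := by
  have h1 := numA_le (pe e)
  have e1 : (pe e).D = 144 * e + 6 := rfl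
  have e2 : (pe e).l = 2 * e := rfl
  have e3 : (pe e).M = 1000 * (2 * e + 1) * Nat.fib (2 * (144 * e + 6) + 2) := rfl
  rw [e1, e2] at h1
  have he2 : e < 2 ^ e := Nat.lt_two_pow_self
  have f1 := fib_le_two_pow (2 * (144 * e + 6) + 2)
  have g1 : (pe e).M + 1 ≤ 2 ^ (289 * e + 26) := by
    rw [e3]
    have a1 : 2 * e + 1 ≤ 2 ^ (e + 1) := by
      rw [pow_succ]
      omega
    have a2 : (2 * e + 1) * Nat.fib (2 * (144 * e + 6) + 2) ≤
        2 ^ (e + 1) * 2 ^ (2 * (144 * e + 6) + 2) := Nat.mul_le_mul a1 f1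
    have a3 : 2 ^ (e + 1) * 2 ^ (2 * (144 * e + 6) + 2) = 2 ^ (289 * e + 15) := by
      rw [← pow_add]
      congr 1
      ring
    have a4 : 2 ^ (289 * e + 26) = 2048 * 2 ^ (289 * e + 15) := by
      rw [show 289 * e + 26 = (289 * e + 15) + 11 by ring, pow_add]
      ring
    have a5 : 1 ≤ 2 ^ (289 * e + 15) := Nat.one_le_two_pow
    have a6 : 1000 * (2 * e + 1) * Nat.fib (2 * (144 * e + 6) + 2) =
        1000 * ((2 * e + 1) * Nat.fib (2 * (144 * e + 6) + 2)) := by ring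
    omega
  have g2 : 144 * e + 6 + 1 ≤ 2 ^ (e + 8) := by
    rw [pow_add]
    omega
  have g3 : 2 * e + 1 ≤ 2 ^ (e + 1) := by
    rw [pow_succ]
    omega
  have g4 : numA (pe e) ≤ 2 ^ (580 * e + 66) := by
    refine h1.trans ?_
    calc 32 * (144 * e + 6 + 1) * (2 * e + 1) * ((pe e).M + 1) ^ 2
        ≤ 32 * 2 ^ (e + 8) * 2 ^ (e + 1) * (2 ^ (289 * e + 26)) ^ 2 := by gcongr
      _ = 2 ^ 5 * 2 ^ (e + 8) * 2 ^ (e + 1) * (2 ^ (289 * e + 26)) ^ 2 := by norm_num
      _ = 2 ^ (580 * e + 66) := by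
        rw [← pow_mul, ← pow_add, ← pow_add, ← pow_add]
        congr 1
        ring
  have g5 : C₂ + 5 ≤ 2 ^ (C₂ + 5) := (Nat.lt_two_pow_self).le
  have g6 : 4 + (C₂ + 1) * numA (pe e) ≤ (C₂ + 5) * 2 ^ (580 * e + 66) := by
    have b1 : (C₂ + 1) * numA (pe e) ≤ (C₂ + 1) * 2 ^ (580 * e + 66) :=
      Nat.mul_le_mul_left _ g4
    have b2 : 1 ≤ 2 ^ (580 * e + 66) := Nat.one_le_two_pow
    have b3 : (C₂ + 5) * 2 ^ (580 * e + 66) =
        (C₂ + 1) * 2 ^ (580 * e + 66) + 4 * 2 ^ (580 * e + 66) := by ring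
    omega
  calc e * (4 + (C₂ + 1) * numA (pe e))
      ≤ 2 ^ e * (2 ^ (C₂ + 5) * 2 ^ (580 * e + 66)) :=
        Nat.mul_le_mul he2.le (g6.trans (Nat.mul_le_mul_right _ g5))
    _ = 2 ^ (581 * e + (C₂ + 71)) := by
      rw [← pow_add, ← pow_add]
      congr 1
      ring
    _ ≤ 2 ^ ((700 + C₂) * e) := by
      refine Nat.pow_le_pow_right (by norm_num) ?_
      have b4 : C₂ + 71 ≤ (C₂ + 71) * e := Nat.le_mul_of_pos_right _ he
      have b5 : (700 + C₂) * e = 581 * e + (C₂ + 71) * e + 48 * e := by ring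
      omega
    _ = (2 ^ (700 + C₂)) ^ e := by rw [pow_mul]

/-- the arithmetic of the last step -/
theorem edges_rate {E n m K A g b e C₁ C₂ : ℕ} (hA : g ≤ A) (hb1 : 1 ≤ b)
    (hb : e * b ≤ g) (hn : 2 + m + K * A = n) (hm : m ≤ K + A + 2)
    (hE : E ≤ K * g + C₁ * (2 + m + K * b + C₂ * A)) (hlarge : e * (4 + (C₂ + 1) * A) ≤ n) :
    e * E ≤ (e + 3 * C₁) * n := by
  have h1 : K * g ≤ n := by
    have : K * g ≤ K * A := Nat.mul_le_mul_left _ (by omega)
    omega
  have h2 : e * (K * b) ≤ n := by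
    have e1 : e * (K * b) = K * (e * b) := by ring
    have e2 : K * (e * b) ≤ K * A := Nat.mul_le_mul_left _ (by omega)
    omega
  have h3 : e * K ≤ n := by
    have e1 : e * 1 ≤ e * b := Nat.mul_le_mul_left _ hb1
    have e2 : K * e ≤ K * A := Nat.mul_le_mul_left _ (by omega)
    have e3 : e * K = K * e := by ring
    omega
  calc e * E ≤ e * (K * g + C₁ * (2 + m + K * b + C₂ * A)) := Nat.mul_le_mul_left _ hE
    _ ≤ e * (K * g + C₁ * (2 + (K + A + 2) + K * b + C₂ * A)) := by gcongr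
    _ = e * (K * g) + C₁ * (e * K + e * (K * b) + e * (4 + (C₂ + 1) * A)) := by ring
    _ ≤ e * n + C₁ * (n + n + n) := by gcongr
    _ = (e + 3 * C₁) * n := by ring

/-- **The last step with a rate.** -/
theorem exists_rate (C₁ C₂ : ℕ) (P : Par → Prop) (hP : ∃ e₀ : ℕ, ∀ e, e₀ ≤ e → P (pe e))
    (hyp : ∀ π : Par, P π → ∀ n m K : ℕ, K + 2 ≤ m → 2 + m + K * numA π = n →
      ∃ H : SimpleGraph (Fin n), MaxRAC H ∧
        H.edgeSet.ncard ≤ K * numG π + C₁ * (2 + m + K * numB π + C₂ * numA π)) :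
    ∃ C : ℝ, ∀ n : ℕ, 2 ≤ n → ∃ H : SimpleGraph (Fin n), MaxRAC H ∧
      (H.edgeSet.ncard : ℝ) ≤ n + C * (n / Real.log n) := by
  obtain ⟨e₀, hP⟩ := hP
  obtain ⟨B, hB⟩ : ∃ B : ℕ, B = 2 ^ (700 + C₂) := ⟨_, rfl⟩
  have hB2 : 2 ≤ B := by
    rw [hB]
    calc 2 = 2 ^ 1 := by norm_num
      _ ≤ 2 ^ (700 + C₂) := Nat.pow_le_pow_right (by norm_num) (by omega)
  obtain ⟨N, hN⟩ : ∃ N : ℕ, N = B ^ (e₀ + 1) := ⟨_, rfl⟩
  have hBr : (1 : ℝ) < B := by exact_mod_cast hB2
  have hlogB : 0 < Real.log B := Real.log_pos hBr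
  refine ⟨max (10002 * Real.log N) (6 * C₁ * Real.log B), fun n hn => ?_⟩
  have hn1 : (1 : ℝ) < n := by exact_mod_cast hn
  have hlog : 0 < Real.log n := Real.log_pos hn1
  have hn0 : (0 : ℝ) < n := by linarith
  rcases Nat.lt_or_ge n N with hlt | hge
  · obtain ⟨H, hH, hle⟩ := Pool.Agent.Helper82.DG.exists_dark' n
    refine ⟨H, hH, hle.trans ?_⟩
    have h1 : (n : ℝ) ^ (2 / 3 : ℝ) ≤ n := by
      calc (n : ℝ) ^ (2 / 3 : ℝ) ≤ (n : ℝ) ^ (1 : ℝ) :=
            Real.rpow_le_rpow_of_exponent_le hn1.le (by norm_num)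
        _ = n := Real.rpow_one _
    have h2 : Real.log n ≤ Real.log N :=
      Real.log_le_log hn0 (by exact_mod_cast hlt.le)
    have h3 : (n : ℝ) ≤ Real.log N * (n / Real.log n) := by
      rw [← mul_div_assoc, le_div_iff₀ hlog]
      nlinarith
    have h4 : (10002 * Real.log N) * (n / Real.log n) ≤
        max (10002 * Real.log N) (6 * C₁ * Real.log B) * (n / Real.log n) :=
      mul_le_mul_of_nonneg_right (le_max_left _ _) (by positivity)
    nlinarith
  · obtain ⟨e, he⟩ : ∃ e, e = Nat.log B n := ⟨_, rfl⟩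
    have hn' : n ≠ 0 := by omega
    have k1 : B ^ e ≤ n := by
      rw [he]
      exact Nat.pow_log_le_self B hn'
    have k2 : n < B ^ (e + 1) := by
      rw [he]
      exact Nat.lt_pow_succ_log_self (by omega) n
    have k3 : e₀ + 1 ≤ e := by
      rw [he]
      exact (Nat.le_log_iff_pow_le (by omega) hn').2 (by rw [← hN]; exact hge)
    have k4 := size_le C₂ (e := e) (by omega)
    rw [← hB] at k4
    have k5 : e * (4 + (C₂ + 1) * numA (pe e)) ≤ n := k4.trans k1
    have hn4 : 4 ≤ n := by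
      refine le_trans ?_ k5
      have : 4 + (C₂ + 1) * numA (pe e) ≤ e * (4 + (C₂ + 1) * numA (pe e)) :=
        Nat.le_mul_of_pos_left _ (by omega)
      omega
    have h2 : e * numB (pe e) ≤ numG (pe e) :=
      numB_small (by omega) le_rfl le_rfl le_rfl
    obtain ⟨m, K, q1, q2, q3⟩ := exists_split (numA (pe e)) hn4
    obtain ⟨H, hH, hE⟩ := hyp (pe e) (hP e (by omega)) n m K q1 q2
    refine ⟨H, hH, ?_⟩
    have h3 := edges_rate (by rw [numA_eq]; omega) (one_le_numB (pe e)) h2 q2 q3 hE k5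
    have h4 : (e : ℝ) * H.edgeSet.ncard ≤ (e + 3 * C₁) * n := by exact_mod_cast h3
    have he0 : (0 : ℝ) < e := by
      have : 0 < e := by omega
      exact_mod_cast this
    have he1 : (1 : ℝ) ≤ e := by
      have : 1 ≤ e := by omega
      exact_mod_cast this
    -- `log n ≤ 2 e log B`
    have h5 : Real.log n ≤ 2 * e * Real.log B := by
      have c1 : Real.log n ≤ Real.log ((B : ℝ) ^ (e + 1)) :=
        Real.log_le_log hn0 (by exact_mod_cast k2.le)
      rw [Real.log_pow] at c1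
      push_cast at c1
      nlinarith
    have h6 : (H.edgeSet.ncard : ℝ) ≤ n + 3 * C₁ * n / e := by
      have c2 : (H.edgeSet.ncard : ℝ) ≤ ((e + 3 * C₁) * n) / e := by
        rw [le_div_iff₀ he0]
        linarith
      refine c2.trans (le_of_eq ?_)
      field_simp
    have h7 : 3 * C₁ * n / (e : ℝ) ≤ (6 * C₁ * Real.log B) * (n / Real.log n) := by
      rw [← mul_div_assoc, div_le_div_iff₀ he0 hlog]
      have c3 : 0 ≤ 3 * (C₁ : ℝ) * n := by positivity
      nlinarith [mul_le_mul_of_nonneg_left h5 c3]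
    have h8 : (6 * C₁ * Real.log B) * (n / Real.log n) ≤
        max (10002 * Real.log N) (6 * C₁ * Real.log B) * (n / Real.log n) :=
      mul_le_mul_of_nonneg_right (le_max_right _ _) (by positivity)
    linarith

end Pool.Agent.Helper82.DG3
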