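import Pool.Agent.Helper65.DG3.Edges3
import Pool.Agent.Helper49.DG3.Good
import Pool.Agent.Helper49.DG3.Exists
import Pool.Agent.Helper60.DG3.Insert
import Pool.Agent.Helper82.DG3.Rate

/-!
# Slope 1: the main theorem
-/

set_option autoImplicit false

namespace Pool.Agent.Helper58.DG3

open Pool.Agent.Helper18.RAC Pool.Agent.Helper68.RAC1

/-- the number of edges of a supergraph -/
theorem LayD.edges {V : Type*} [Finite V] {a b : V} {p : ℕ → V} {κ : ℕ → GX → V} {m K : ℕ}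
    {π : Par} (hl : LayD a b p κ m K π) {H : SimpleGraph V} (hle : GDt a b p κ m π K ≤ H)
    (hH : ∃ f : V → ℂ, IsRAC H f) :
    H.edgeSet.ncard ≤ K * numG π + 33 * (2 + m + K * numB π + 450 * numA π) := by
  obtain ⟨f, hf⟩ := hH
  obtain ⟨g, hg1, hg2, hg3⟩ := hf.normalize hl.ab
  have hN : Nm H g a b := ⟨hg1, hg2, hg3, hle (hl.code_adj3 (c := .ab) trivial)⟩
  exact hl.edges_of hle hg1 (good_kites hl hle hN)

/-- the last step for one kind of grid -/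
theorem exists_of_par {π : Par} (h : 4 ≤ π.D ∧ 8 ≤ π.M) {n m K : ℕ} (h1 : K + 2 ≤ m)
    (h2 : 2 + m + K * numA π = n) : ∃ H : SimpleGraph (Fin n), MaxRAC H ∧
      H.edgeSet.ncard ≤ K * numG π + 33 * (2 + m + K * numB π + 450 * numA π) := by
  obtain ⟨a, b, p, κ, hl⟩ := exists_layD h1 h.1 h.2 h2
  obtain ⟨H, hle, hmax⟩ := exists_max hl.rac
  exact ⟨H, hmax, hl.edges hle hmax.1⟩

/-- **Maximal straight-line RAC graphs with `n + O(n / log n)` edges.** -/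
theorem exists_asym : ∃ C : ℝ, ∀ n : ℕ, 2 ≤ n → ∃ H : SimpleGraph (Fin n), MaxRAC H ∧
    (H.edgeSet.ncard : ℝ) ≤ n + C * (n / Real.log n) := by
  refine Pool.Agent.Helper82.DG3.exists_rate 33 450 (fun π => 4 ≤ π.D ∧ 8 ≤ π.M) ⟨0, ?_⟩
    (fun π hP n m K h1 h2 => exists_of_par hP h1 h2)
  intro e _
  refine ⟨by change 4 ≤ 144 * e + 6; omega, ?_⟩
  change 8 ≤ 1000 * (2 * e + 1) * Nat.fib (2 * (144 * e + 6) + 2)
  have h1 : 1 ≤ Nat.fib (2 * (144 * e + 6) + 2) := Nat.fib_pos.2 (by omega)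
  have h2 : 1000 * (2 * e + 1) * 1 ≤ 1000 * (2 * e + 1) * Nat.fib (2 * (144 * e + 6) + 2) :=
    Nat.mul_le_mul_left _ h1
  omega

/-- the form with `ε` -/
theorem exists_asym_eps {ε : ℝ} (hε : 0 < ε) : ∃ n₀ : ℕ, ∀ n, n₀ ≤ n →
    ∃ H : SimpleGraph (Fin n), MaxRAC H ∧ (H.edgeSet.ncard : ℝ) ≤ (1 + ε) * n :=
  exists_sparse 33 450 (fun π => 4 ≤ π.D ∧ 8 ≤ π.M)
    ⟨4, 0, fun _ hD _ _ => ⟨8, fun _ hM => ⟨hD, hM⟩⟩⟩
    (fun _ hP _ _ _ h1 h2 => exists_of_par hP h1 h2) hε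

end Pool.Agent.Helper58.DG3
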