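import Pool.Agent.Helper74.DG3.Frame
import Pool.Agent.Helper82.DG3.CRect

/-!
# Slope 1: positions of the vertices of the net

`ND`: the net over the frame `FD`, in abstract form.  `S x y` are the used points, `f x y` the
vertices.  The row line `y` starts at the entry `D true (y + 1)`, the column line `x` at the entry
`D false (x + 1)`.  The result: `f x y` lies in the point `(gx x, gy y)`.
-/

set_option autoImplicit false

namespace Pool.Agent.Helper82.DG3

open Pool.Agent.Helper18.RAC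
open Pool.Agent.Helper82.DG (NE SE NW SW Rect axis_x axis_y)
open Pool.Agent.Helper74.DG3 (FD Lg)

variable {V : Type*}

/-- the local conditions for consecutive points `(x', y)`, `(x, y)` of a row -/
def Rig (S : ℕ → ℕ → Prop) : Prop :=
  ∀ x' x y, 1 ≤ x' → x' < x → 1 ≤ y → S x' y → S x y → (∀ z, x' < z → z < x → ¬ S z y) →
    x' + 3 ≤ x ∧ (2 ≤ x' → ¬ S (x' - 1) y ∧ ∃ v, y < v ∧ x' - 1 + v < x + y ∧ S (x' - 1) v) ∧
    (¬ S (x' + 1) y ∧ ∃ v, y < v ∧ x' + 1 + v < x + y ∧ S (x' + 1) v) ∧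
    (2 ≤ y → ¬ S x' (y - 1) ∧ ∃ u, x' < u ∧ u + (y - 1) < x + y ∧ S u (y - 1)) ∧
    (¬ S x' (y + 1) ∧ ∃ u, x' < u ∧ u + (y + 1) < x + y ∧ S u (y + 1))

/-- the net -/
structure ND (H : SimpleGraph V) (S : ℕ → ℕ → Prop) (f : ℕ → ℕ → V) (D : Bool → ℕ → V) (M : ℕ) :
    Prop where
  row : ∀ x x' y, 1 ≤ y → x < x' → x' + y + 3 ≤ M → S x' y → (x = 0 ∨ S x y) →
    (∀ z, x < z → z < x' → ¬ S z y) → H.Adj (if x = 0 then D true (y + 1) else f x y) (f x' y)
  col : ∀ y y' x, 1 ≤ x → y < y' → y' + x + 3 ≤ M → S x y' → (y = 0 ∨ S x y) →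
    (∀ z, y < z → z < y' → ¬ S x z) → H.Adj (if y = 0 then D false (x + 1) else f x y) (f x y')
  rig : Rig S
  rig' : Rig (fun x y => S y x)
  inj : ∀ x y x' y', 1 ≤ x → 1 ≤ y → x + y + 3 ≤ M → S x y → 1 ≤ x' → 1 ≤ y' → x' + y' + 3 ≤ M →
    S x' y' → f x y = f x' y' → x = x' ∧ y = y'
  nD : ∀ σ c x y, c < M → 1 ≤ x → 1 ≤ y → x + y + 3 ≤ M → S x y → f x y ≠ D σ c

theorem ND.swap {H : SimpleGraph V} {S : ℕ → ℕ → Prop} {f : ℕ → ℕ → V} {D : Bool → ℕ → V} {M : ℕ}
    (n : ND H S f D M) : ND H (fun x y => S y x) (fun x y => f y x) (fun σ => D (!σ)) M where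
  row := n.col
  col := n.row
  rig := n.rig'
  rig' := n.rig
  inj := fun x y x' y' h1 h2 h3 h4 h5 h6 h7 h8 h9 =>
    (n.inj y x y' x' h2 h1 (by omega) h4 h6 h5 (by omega) h8 h9).symm
  nD := fun σ c x y h0 h1 h2 h3 h4 => n.nD (!σ) c y x h0 h2 h1 (by omega) h4

/-- the abscissa of the column line `x`; the line `0` is the long line number `2` -/
noncomputable def gx (X : V → ℝ) (P : Bool → ℕ → V) (σ : Bool) (x : ℕ) : ℝ :=
  X (P σ (if x = 0 then 4 else 2 * x + 3))

/-- the points with sum less than `N` are in their places -/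
def Placed (X Y : V → ℝ) (P : Bool → ℕ → V) (S : ℕ → ℕ → Prop) (f : ℕ → ℕ → V) (N : ℕ) : Prop :=
  ∀ x y, 1 ≤ x → 1 ≤ y → S x y → x + y < N →
    X (f x y) = gx X P false x ∧ Y (f x y) = gx Y P true y

theorem Placed.swap {X Y : V → ℝ} {P : Bool → ℕ → V} {S : ℕ → ℕ → Prop} {f : ℕ → ℕ → V} {N : ℕ}
    (h : Placed X Y P S f N) :
    Placed Y X (fun σ => P (!σ)) (fun x y => S y x) (fun x y => f y x) N :=
  fun x y h1 h2 h3 h4 => (h y x h2 h1 h3 (by omega)).symm

/-- the set `Z` contains the ends of the lines -/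
structure InZ (Z : Set V) (P U D : Bool → ℕ → V) (S : ℕ → ℕ → Prop) (f : ℕ → ℕ → V) (M : ℕ) :
    Prop where
  P : ∀ σ, P σ 4 ∈ Z
  U : ∀ σ, U σ 2 ∈ Z
  D : ∀ σ c, c < M → D σ c ∈ Z
  f : ∀ x y, 1 ≤ x → 1 ≤ y → x + y + 3 ≤ M → S x y → f x y ∈ Z

theorem InZ.swap {Z : Set V} {P U D : Bool → ℕ → V} {S : ℕ → ℕ → Prop} {f : ℕ → ℕ → V} {M : ℕ}
    (h : InZ Z P U D S f M) : InZ Z (fun σ => P (!σ)) (fun σ => U (!σ)) (fun σ => D (!σ))
      (fun x y => S y x) (fun x y => f y x) M :=
  ⟨fun σ => h.P (!σ), fun σ => h.U (!σ), fun σ => h.D (!σ),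
    fun x y h1 h2 h3 h4 => h.f y x h2 h1 (by omega) h4⟩

theorem inZ_univ {P U D : Bool → ℕ → V} {S : ℕ → ℕ → Prop} {f : ℕ → ℕ → V} {M : ℕ} :
    InZ Set.univ P U D S f M :=
  ⟨fun _ => trivial, fun _ => trivial, fun _ _ _ => trivial, fun _ _ _ _ _ _ => trivial⟩

/-- the last point before `n` -/
theorem exists_prev (Q : ℕ → Prop) (n : ℕ) (hn : 0 < n) :
    ∃ m, m < n ∧ (m = 0 ∨ Q m) ∧ ∀ z, m < z → z < n → ¬ Q z := by
  classical
  induction n with
  | zero => omega
  | succ n ih =>
    rcases Nat.eq_zero_or_pos n with rfl | h0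
    · exact ⟨0, hn, Or.inl rfl, fun z h1 h2 => by omega⟩
    · by_cases hQ : Q n
      · exact ⟨n, by omega, Or.inr hQ, fun z h1 h2 => by omega⟩
      · obtain ⟨m, h1, h2, h3⟩ := ih h0
        refine ⟨m, by omega, h2, fun z h4 h5 => ?_⟩
        rcases Nat.lt_or_ge z n with h6 | h6
        · exact h3 z h4 h6
        · have : z = n := by omega
          rw [this]
          exact hQ

section

variable {H : SimpleGraph V} {X Y : V → ℝ} {E F a b : ℝ} {xc yc : Bool → V}
    {P U : Bool → ℕ → V} {C : Bool → ℕ → Bool → V} {D : Bool → ℕ → V} {M : ℕ}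
    {S : ℕ → ℕ → Prop} {f : ℕ → ℕ → V} {N : ℕ}

theorem gx_lt (h : FD H X Y E F a b xc yc P U C D M) {x x' : ℕ} (hx : x < x')
    (hM : x' + 2 ≤ M) : gx X P false x < gx X P false x' := by
  have := h.hM
  unfold gx
  refine h.X_lt ?_ ?_
  · split_ifs <;> omega
  · split_ifs <;> omega

theorem gx_le (h : FD H X Y E F a b xc yc P U C D M) {x x' : ℕ} (hx : x ≤ x')
    (hM : x' + 2 ≤ M) : gx X P false x ≤ gx X P false x' := by
  rcases hx.eq_or_lt with rfl | h1
  · exact le_rfl
  · exact (gx_lt h h1 hM).le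

theorem gy_lt (h : FD H X Y E F a b xc yc P U C D M) {x x' : ℕ} (hx : x < x')
    (hM : x' + 2 ≤ M) : gx Y P true x < gx Y P true x' := gx_lt h.swap hx hM

theorem gy_le (h : FD H X Y E F a b xc yc P U C D M) {x x' : ℕ} (hx : x ≤ x')
    (hM : x' + 2 ≤ M) : gx Y P true x ≤ gx Y P true x' := gx_le h.swap hx hM

/-- a piece of a column line is covered by an edge with ends in `Z` -/
theorem cov_colZ (h : FD H X Y E F a b xc yc P U C D M) (n : ND H S f D M) {Z : Set V}
    (hZ : InZ Z P U D S f M)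
    (hN : N + 2 ≤ M) (hp : Placed X Y P S f N) {i y0 y1 : ℕ} (hy : y0 < y1)
    (hi : 1 ≤ i → (∀ z, y0 < z → z < y1 → ¬ S i z) ∧ ∃ v, y1 ≤ v ∧ i + v < N ∧ S i v)
    (hyM : y1 + 3 ≤ M) (hiM : i + 2 ≤ M) :
    ∃ p p', H.Adj p p' ∧ p ∈ Z ∧ p' ∈ Z ∧ X p = gx X P false i ∧ X p' = gx X P false i ∧
      Y p ≤ gx Y P true y0 ∧ gx Y P true y1 ≤ Y p' := by
  classical
  have hM := h.hM
  rcases Nat.eq_zero_or_pos i with rfl | h0
  · have g1 := h.hP0 4 (by omega)
    have g2 := h.hP1 (if y0 = 0 then 4 else 2 * y0 + 3) (by split_ifs <;> omega)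
    have g3 := h.swap.U_far (j := if y1 = 0 then 4 else 2 * y1 + 3) (r := 2)
      (by split_ifs <;> omega) (by omega) (Or.inl (by omega))
    have g4 := h.X_U (c := 2) (by omega)
    simp only [Bool.not_false, Bool.not_true] at g3
    refine ⟨P false 4, U false 2, (h.up false 2 (by omega)).symm, hZ.P false, hZ.U false,
      ?_, ?_, ?_, g3.le⟩
    · simp [gx]
    · rw [g4]
      simp [gx]
    · unfold gx
      linarith [g1.2.1, g2.1]
  · obtain ⟨hno, v, hv1, hv2, hv3⟩ := hi h0
    have hex : ∃ v, y1 ≤ v ∧ S i v := ⟨v, hv1, hv3⟩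
    obtain ⟨hw1, hw2⟩ := Nat.find_spec hex
    have hw3 : Nat.find hex ≤ v := Nat.find_min' hex ⟨hv1, hv3⟩
    set w := Nat.find hex with hw
    obtain ⟨u, hu1, hu2, hu3⟩ := exists_prev (fun z => S i z) w (by omega)
    have hu4 : u ≤ y0 := by
      by_contra hlt
      rw [not_le] at hlt
      rcases hu2 with h3 | h3
      · omega
      · rcases Nat.lt_or_ge u y1 with h4 | h4
        · exact hno u hlt h4 h3
        · exact Nat.find_min hex hu1 ⟨h4, h3⟩
    have ad := n.col u w i h0 hu1 (by omega) hw2 hu2 hu3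
    obtain ⟨q1, q2⟩ := hp i w h0 (by omega) hw2 (by omega)
    by_cases hu0 : u = 0
    · rw [if_pos hu0] at ad
      have e1 := h.X_D (c := i + 1) (by omega)
      have e2 := h.Y_row (i + 1) (by omega)
      have e3 := h.Y_lt (i := 1) (j := if y0 = 0 then 4 else 2 * y0 + 3)
        (by split_ifs <;> omega) (by split_ifs <;> omega)
      refine ⟨_, _, ad, hZ.D _ _ (by omega), hZ.f _ _ h0 (by omega) (by omega) hw2,
        ?_, q1, ?_, ?_⟩
      · rw [e1]
        unfold gx
        rw [if_neg (by omega)]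
        rfl
      · rw [e2]
        exact e3.le
      · rw [q2]
        exact gy_le h hw1 (by omega)
    · rw [if_neg hu0] at ad
      have hSu : S i u := by
        rcases hu2 with h3 | h3
        · omega
        · exact h3
      obtain ⟨r1, r2⟩ := hp i u h0 (by omega) hSu (by omega)
      refine ⟨_, _, ad, hZ.f _ _ h0 (by omega) (by omega) hSu,
        hZ.f _ _ h0 (by omega) (by omega) hw2, r1, q1, ?_, ?_⟩
      · rw [r2]
        exact gy_le h hu4 (by omega)
      · rw [q2]
        exact gy_le h hw1 (by omega)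

/-- a piece of a row line is covered by an edge with ends in `Z` -/
theorem cov_rowZ (h : FD H X Y E F a b xc yc P U C D M) (n : ND H S f D M) {Z : Set V}
    (hZ : InZ Z P U D S f M)
    (hN : N + 2 ≤ M) (hp : Placed X Y P S f N) {i x0 x1 : ℕ} (hx : x0 < x1)
    (hi : 1 ≤ i → (∀ z, x0 < z → z < x1 → ¬ S z i) ∧ ∃ v, x1 ≤ v ∧ v + i < N ∧ S v i)
    (hxM : x1 + 3 ≤ M) (hiM : i + 2 ≤ M) :
    ∃ p p', H.Adj p p' ∧ p ∈ Z ∧ p' ∈ Z ∧ Y p = gx Y P true i ∧ Y p' = gx Y P true i ∧
      X p ≤ gx X P false x0 ∧ gx X P false x1 ≤ X p' :=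
  cov_colZ h.swap n.swap hZ.swap hN hp.swap hx (fun h1 => by
    obtain ⟨h2, v, h3, h4, h5⟩ := hi h1
    exact ⟨h2, v, h3, by omega, h5⟩) hxM hiM

/-- a piece of a column line is covered by an edge -/
theorem cov_col (h : FD H X Y E F a b xc yc P U C D M) (n : ND H S f D M)
    (hN : N + 2 ≤ M) (hp : Placed X Y P S f N) {i y0 y1 : ℕ} (hy : y0 < y1)
    (hi : 1 ≤ i → (∀ z, y0 < z → z < y1 → ¬ S i z) ∧ ∃ v, y1 ≤ v ∧ i + v < N ∧ S i v)
    (hyM : y1 + 3 ≤ M) (hiM : i + 2 ≤ M) :
    ∃ p p', H.Adj p p' ∧ X p = gx X P false i ∧ X p' = gx X P false i ∧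
      Y p ≤ gx Y P true y0 ∧ gx Y P true y1 ≤ Y p' := by
  obtain ⟨p, p', h1, _, _, h2⟩ := cov_colZ h n inZ_univ hN hp hy hi hyM hiM
  exact ⟨p, p', h1, h2⟩

/-- a piece of a row line is covered by an edge -/
theorem cov_row (h : FD H X Y E F a b xc yc P U C D M) (n : ND H S f D M)
    (hN : N + 2 ≤ M) (hp : Placed X Y P S f N) {i x0 x1 : ℕ} (hx : x0 < x1)
    (hi : 1 ≤ i → (∀ z, x0 < z → z < x1 → ¬ S z i) ∧ ∃ v, x1 ≤ v ∧ v + i < N ∧ S v i)
    (hxM : x1 + 3 ≤ M) (hiM : i + 2 ≤ M) :
    ∃ p p', H.Adj p p' ∧ Y p = gx Y P true i ∧ Y p' = gx Y P true i ∧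
      X p ≤ gx X P false x0 ∧ gx X P false x1 ≤ X p' := by
  obtain ⟨p, p', h1, _, _, h2⟩ := cov_rowZ h n inZ_univ hN hp hx hi hxM hiM
  exact ⟨p, p', h1, h2⟩

/-- where the edge from the left neighbour may end -/
theorem exit_row (h : FD H X Y E F a b xc yc P U C D M) (n : ND H S f D M)
    (hN : N + 3 ≤ M) (hp : Placed X Y P S f N) {x y : ℕ} (hx : 1 ≤ x) (hy : 1 ≤ y)
    (hxy : x + y = N) (hS : S x y) :
    (X (f x y) < gx X P false (x - 1) ∧ gx Y P true (y - 1) ≤ Y (f x y)) ∨
      Y (f x y) = gx Y P true y := by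
  have hM := h.hM
  obtain ⟨x', hx1, hx2, hx3⟩ := exists_prev (fun z => S z y) x (by omega)
  have ad := n.row x' x y hy hx1 (by omega) hS hx2 hx3
  by_cases hx0 : x' = 0
  · rw [if_pos hx0] at ad
    have e1 := h.X_col (y + 1) (by omega)
    have e2 := h.Y_D (r := y + 1) (by omega)
    have e3 : gx Y P true y = Y (P true (2 * (y + 1) + 1)) := by
      unfold gx
      rw [if_neg (by omega)]
      rfl
    have x01 := h.X_lt (i := 0) (j := 1) (by omega) (by omega)
    have x12 := h.X_lt (i := 1) (j := 2) (by omega) (by omega)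
    have x24 := h.X_lt (i := 2) (j := 4) (by omega) (by omega)
    have y1 := h.Y_lt (i := 2 * (y + 1)) (j := 2 * (y + 1) + 1) (by omega) (by omega)
    have y2 := h.Y_lt (i := 2 * (y + 1) + 1) (j := 2 * (y + 1) + 2) (by omega) (by omega)
    have x4 : X (P false 4) ≤ gx X P false (x - 1) := by
      have := gx_le h (x := 0) (x' := x - 1) (by omega) (by omega)
      have h2 : gx X P false 0 = X (P false 4) := by simp [gx]
      rw [← h2]
      exact this
    have y3 : gx Y P true (y - 1) ≤ Y (P true (2 * (y + 1))) := by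
      unfold gx
      refine h.Y_le ?_ (by omega)
      split_ifs <;> omega
    have hr := (h.swap.rect0 (c := y + 1) (by omega)).swap
    simp only [Bool.not_false, Bool.not_true, Nat.mul_zero] at hr
    rcases hr.through h.hd ad (s := 0) le_rfl zero_le_one (by linarith) (by linarith)
      (by linarith) (by linarith) with g | g | g
    · exact Or.inl ⟨by linarith [g.2.1], by linarith [g.2.2.1]⟩
    · left
      refine ⟨by linarith, ?_⟩
      by_contra hlt
      rw [not_le] at hlt
      have e4 := h.X_col y (by omega)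
      have e5 := h.Y_D (r := y) (by omega)
      have y4 := h.Y_lt (i := 2 * y + 1) (j := 2 * (y + 1) + 1) (by omega) (by omega)
      have := axis_y h.hd ad (h.dd true y (by omega)).symm g (by rw [e4, e1])
        (Or.inr ⟨by linarith, by linarith⟩)
      exact n.nD true y x y (by omega) hx hy (by omega) hS this
    · right
      rw [g, e2, e3]
  · rw [if_neg hx0] at ad
    have hSx : S x' y := by
      rcases hx2 with h3 | h3
      · omega
      · exact h3
    obtain ⟨q1, q2⟩ := hp x' y (by omega) hy hSx (by omega)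
    obtain ⟨r1, r2, ⟨r3, v3, r3a, r3b, r3c⟩, r4, r5, v5, r5a, r5b, r5c⟩ :=
      n.rig x' x y (by omega) hx1 hy hSx hS hx3
    have hc : CRect H X Y (gx X P false (x' - 1)) (gx X P false (x' + 1))
        (gx Y P true (y - 1)) (gx Y P true (y + 1)) := by
      refine ⟨gx_lt h (by omega) (by omega), gy_lt h (by omega) (by omega), ?_, ?_, ?_, ?_⟩
      · refine cov_col h n (by omega) hp (by omega) ?_ (by omega) (by omega)
        intro h1
        obtain ⟨s1, v, s2, s3, s4⟩ := r2 (by omega)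
        refine ⟨fun z h2 h3 => ?_, v, by omega, by omega, s4⟩
        have : z = y := by omega
        rw [this]
        exact s1
      · refine cov_col h n (by omega) hp (by omega) ?_ (by omega) (by omega)
        intro h1
        refine ⟨fun z h2 h3 => ?_, v3, by omega, by omega, r3c⟩
        have : z = y := by omega
        rw [this]
        exact r3
      · refine cov_row h n (by omega) hp (by omega) ?_ (by omega) (by omega)
        intro h1
        obtain ⟨s1, v, s2, s3, s4⟩ := r4 (by omega)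
        refine ⟨fun z h2 h3 => ?_, v, by omega, by omega, s4⟩
        have : z = x' := by omega
        rw [this]
        exact s1
      · refine cov_row h n (by omega) hp (by omega) ?_ (by omega) (by omega)
        intro h1
        refine ⟨fun z h2 h3 => ?_, v5, by omega, by omega, r5c⟩
        have : z = x' := by omega
        rw [this]
        exact r5
    clear r2 r4
    have x1 := gx_lt h (x := x' - 1) (x' := x') (by omega) (by omega)
    have x2 := gx_lt h (x := x') (x' := x' + 1) (by omega) (by omega)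
    have x3 := gx_lt h (x := x' + 1) (x' := x - 1) (by omega) (by omega)
    have y1 := gy_lt h (x := y - 1) (x' := y) (by omega) (by omega)
    have y2 := gy_lt h (x := y) (x' := y + 1) (by omega) (by omega)
    rcases hc.through h.hd ad (s := 0) le_rfl zero_le_one (by linarith) (by linarith)
      (by linarith) (by linarith) with g | g | g
    · exact Or.inl ⟨by linarith [g.2.1], g.2.2.1⟩
    · left
      refine ⟨by linarith, ?_⟩
      by_contra hlt
      rw [not_le] at hlt
      obtain ⟨w, hw1, hw2, hw3⟩ := exists_prev (fun z => S x' z) y (by omega)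
      have ad2 := n.col w y x' (by omega) hw1 (by omega) hSx hw2 hw3
      by_cases hw0 : w = 0
      · rw [if_pos hw0] at ad2
        have e1 := h.X_D (c := x' + 1) (by omega)
        have e2 := h.Y_row (x' + 1) (by omega)
        have e3 : gx X P false x' = X (P false (2 * (x' + 1) + 1)) := by
          unfold gx
          rw [if_neg (by omega)]
          rfl
        have e4 : gx Y P true y = Y (P true (2 * y + 3)) := by
          unfold gx
          rw [if_neg (by omega)]
        have y4 := h.Y_lt (i := 1) (j := 2 * y + 3) (by omega) (by omega)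
        have := axis_y h.hd ad ad2.symm g (by rw [e1, q1, e3])
          (Or.inr ⟨by linarith, by linarith⟩)
        exact n.nD false (x' + 1) x y (by omega) hx hy (by omega) hS this
      · rw [if_neg hw0] at ad2
        have hSw : S x' w := by
          rcases hw2 with h3 | h3
          · omega
          · exact h3
        obtain ⟨t1, t2⟩ := hp x' w (by omega) (by omega) hSw (by omega)
        have y4 := gy_lt h (x := w) (x' := y) (by omega) (by omega)
        have := axis_y h.hd ad ad2.symm g (by rw [t1, q1]) (Or.inr ⟨by linarith, by linarith⟩)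
        have := n.inj x y x' w hx hy (by omega) hS (by omega) (by omega) (by omega) hSw this
        omega
    · right
      rw [g, q2]

theorem exit_col (h : FD H X Y E F a b xc yc P U C D M) (n : ND H S f D M)
    (hN : N + 3 ≤ M) (hp : Placed X Y P S f N) {x y : ℕ} (hx : 1 ≤ x) (hy : 1 ≤ y)
    (hxy : x + y = N) (hS : S x y) :
    (Y (f x y) < gx Y P true (y - 1) ∧ gx X P false (x - 1) ≤ X (f x y)) ∨
      X (f x y) = gx X P false x :=
  exit_row h.swap n.swap hN hp.swap hy hx (by omega) hS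

/-- the vertices of the net are in their places -/
theorem placed (h : FD H X Y E F a b xc yc P U C D M) (n : ND H S f D M) :
    ∀ N, N + 2 ≤ M → Placed X Y P S f N := by
  intro N
  induction N with
  | zero =>
    intro _ x y h1 h2 h3 h4
    omega
  | succ N ih =>
    intro hN x y h1 h2 h3 h4
    have hp := ih (by omega)
    rcases Nat.lt_or_ge (x + y) N with h5 | h5
    · exact hp x y h1 h2 h3 h5
    · have e : x + y = N := by omega
      have x1 := gx_lt h (x := x - 1) (x' := x) (by omega) (by omega)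
      have y1 := gy_lt h (x := y - 1) (x' := y) (by omega) (by omega)
      rcases exit_row h n (by omega) hp h1 h2 e h3 with ⟨g1, g2⟩ | g
      · rcases exit_col h n (by omega) hp h1 h2 e h3 with ⟨g3, g4⟩ | g3
        · linarith
        · linarith
      · rcases exit_col h n (by omega) hp h1 h2 e h3 with ⟨g3, g4⟩ | g3
        · linarith
        · exact ⟨g3, g⟩

end

end Pool.Agent.Helper82.DG3
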