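import Pool.Agent.Helper58.DG3.Net
import Pool.Agent.Helper82.DG3.NetPos

/-!
# Slope 1: from the drawing of a frame and a net to the interface `Net`
-/

set_option autoImplicit false

namespace Pool.Agent.Helper82.DG3

open Pool.Agent.Helper18.RAC
open Pool.Agent.Helper58.DG3
open Pool.Agent.Helper82.DG (NE SE NW SW Rect axis_x axis_y place_NE)
open Pool.Agent.Helper74.DG3 (FD)

variable {V : Type*} {H : SimpleGraph V} {X Y : V → ℝ} {E F a b : ℝ} {κ : GX → V} {π : Par}

/-- the frame of the grid -/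
abbrev FDk (H : SimpleGraph V) (X Y : V → ℝ) (E F a b : ℝ) (κ : GX → V) (π : Par) : Prop :=
  FD H X Y E F a b (fun σ => κ (.X σ)) (fun σ => κ (.Y σ)) (fun σ j => κ (.v (.P σ j)))
    (fun σ c => κ (.v (.U σ c))) (fun σ j ε => κ (.v (.C σ j ε)))
    (fun σ c => κ (.v (.D' σ c 0))) π.M

/-- the used points -/
def Sk (π : Par) (x y : ℕ) : Prop := InS π.D ((x : ℤ), (y : ℤ))

/-- the net of the drawing -/
theorem nd (hg : HasNet H κ π) (hr : Rig (Sk π)) (hr' : Rig (fun x y => Sk π y x)) :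
    ND H (Sk π) (fun x y => κ (.v (.F x y))) (fun σ c => κ (.v (.D' σ c 0))) π.M where
  row := by
    intro x x' y h1 h2 h3 h4 h5 h6
    have := hg.adj (.nl true x x' y) ⟨h1, h2, h3, h4, h5, h6⟩ trivial
    by_cases h0 : x = 0
    · simpa [GE.ends, GN.lo, GN.F', h0] using this
    · simpa [GE.ends, GN.lo, GN.F', h0] using this
  col := by
    intro x x' y h1 h2 h3 h4 h5 h6
    have := hg.adj (.nl false x x' y) ⟨h1, h2, h3, h4, h5, h6⟩ trivial
    by_cases h0 : x = 0
    · simpa [GE.ends, GN.lo, GN.F', h0] using this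
    · simpa [GE.ends, GN.lo, GN.F', h0] using this
  rig := hr
  rig' := hr'
  inj := by
    intro x y x' y' h1 h2 h3 h4 h5 h6 h7 h8 h9
    have := hg.inj (.F x y) (.F x' y') ⟨h1, h2, h3, h4⟩ ⟨h5, h6, h7, h8⟩ trivial trivial h9
    injection this with e1 e2
    exact ⟨e1, e2⟩
  nD := by
    intro σ c x y h0 h1 h2 h3 h4 h5
    have hM := hg.hM
    cases σ with
    | false =>
      have := hg.inj (.F x y) (.D c 0) ⟨h1, h2, h3, h4⟩ ⟨h0, by omega, Or.inr rfl⟩ trivial trivial
        h5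
      cases this
    | true =>
      have := hg.inj (.F x y) (.D 0 c) ⟨h1, h2, h3, h4⟩ ⟨by omega, h0, Or.inl rfl⟩ trivial trivial
        h5
      cases this

theorem inZ (hg : HasNet H κ π) :
    InZ (ZN κ π) (fun σ j => κ (.v (.P σ j))) (fun σ c => κ (.v (.U σ c)))
      (fun σ c => κ (.v (.D' σ c 0))) (Sk π) (fun x y => κ (.v (.F x y))) π.M where
  P := fun σ => ⟨.P σ 4, by
    have := hg.hM
    change 4 < 2 * π.M
    omega, trivial, rfl⟩
  U := fun σ => ⟨.U σ 2, by
    have := hg.hM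
    change 2 < π.M
    omega, trivial, rfl⟩
  D := fun σ c hc => by
    have := hg.hM
    cases σ with
    | false => exact ⟨.D c 0, ⟨hc, by omega, Or.inr rfl⟩, trivial, rfl⟩
    | true => exact ⟨.D 0 c, ⟨by omega, hc, Or.inl rfl⟩, trivial, rfl⟩
  f := fun x y h1 h2 h3 h4 => ⟨.F x y, ⟨h1, h2, h3, h4⟩, trivial, rfl⟩

theorem gX_nat (x : ℕ) : gX X κ (x : ℤ) = gx X (fun σ j => κ (.v (.P σ j))) false x := by
  unfold gX gx
  rcases Nat.eq_zero_or_pos x with rfl | h
  · simp
  · rw [if_neg (by omega), if_neg (by omega)]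
    simp

theorem gY_nat (x : ℕ) : gY Y κ (x : ℤ) = gx Y (fun σ j => κ (.v (.P σ j))) true x := by
  unfold gY gx
  rcases Nat.eq_zero_or_pos x with rfl | h
  · simp
  · rw [if_neg (by omega), if_neg (by omega)]
    simp

theorem R_pos (π : Par) : 0 < π.R := Nat.fib_pos.2 (by omega)

/-- in every row there is a point of the lattice among `R` consecutive points -/
theorem exists_next (π : Par) (x y : ℕ) : ∃ v, x < v ∧ v ≤ x + π.R ∧ Sk π v y := by
  have hR : (0 : ℤ) < (π.R : ℤ) := by exact_mod_cast R_pos π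
  set r : ℤ := ((Nat.fib (2 * π.D) : ℤ) * y - (x + 1)) % π.R with hr
  have h0 : 0 ≤ r := Int.emod_nonneg _ hR.ne'
  have h1 : r < π.R := Int.emod_lt_of_pos _ hR
  refine ⟨x + 1 + r.toNat, by omega, by omega, Or.inl ?_⟩
  have h2 : (π.R : ℤ) ∣ ((Nat.fib (2 * π.D) : ℤ) * y - (x + 1)) - r := by
    rw [hr]
    exact Int.dvd_self_sub_emod
  change (π.R : ℤ) ∣ ((x + 1 + r.toNat : ℕ) : ℤ) - (Nat.fib (2 * π.D) : ℤ) * (y : ℤ)
  have h3 : (((x + 1 + r.toNat : ℕ) : ℤ)) - (Nat.fib (2 * π.D) : ℤ) * (y : ℤ) =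
      -(((Nat.fib (2 * π.D) : ℤ) * y - (x + 1)) - r) := by
    push_cast
    rw [Int.toNat_of_nonneg h0]
    ring
  rw [h3]
  exact (dvd_neg).2 h2

section

variable (hd : GDraw H X Y E F a b κ π) (hf : FDk H X Y E F a b κ π) (hr : Rig (Sk π))
  (hr' : Rig (fun x y => Sk π y x)) (hs : ∀ x y, Sk π x y ↔ Sk π y x)

include hd hf hr hr'

theorem placed_all : Placed X Y (fun σ j => κ (.v (.P σ j))) (Sk π) (fun x y => κ (.v (.F x y)))
    (π.M - 2) := by
  have hM := hd.hg.hM
  exact placed hf (nd hd.hg hr hr') _ (by omega)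

/-- all the vertices of the net lie in the cell `NE` -/
theorem F_NE (x : ℕ) (hx : 1 ≤ x) : ∀ N y, y < N → 1 ≤ y → x + y + 3 ≤ π.M → Sk π x y →
    NE X Y (κ (.v (.F x y))) := by
  have hM := hd.hg.hM
  have hp := placed_all hd hf hr hr'
  have n := nd hd.hg hr hr'
  intro N
  induction N with
  | zero => intro y h1; omega
  | succ N ih =>
    intro y hy h1 h2 hS
    obtain ⟨u, hu1, hu2, hu3⟩ := exists_prev (fun z => Sk π x z) y (by omega)
    have ad := n.col u y x hx hu1 (by omega) hS hu2 hu3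
    obtain ⟨q1, q2⟩ := hp x y hx h1 hS (by omega)
    have hXu := hd.hg.nX (.F x y) true ⟨hx, h1, h2, hS⟩ trivial
    have hXw := hd.hg.nX (.F x y) false ⟨hx, h1, h2, hS⟩ trivial
    have key : ∀ v, NE X Y v → H.Adj v (κ (.v (.F x y))) → X v = X (κ (.v (.F x y))) →
        Y v < Y (κ (.v (.F x y))) → NE X Y (κ (.v (.F x y))) := by
      intro v hv hv' hX hY
      rcases place_NE hd.hd hd.hk hv' hv with e | e | e | e | e | e
      · exact absurd e hXu
      · exact absurd e hXw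
      · exact e
      · linarith [e.2.2.1, hv.2.1]
      · linarith [e.2.2.1, hv.1]
      · linarith [e.2.1]
    by_cases hu0 : u = 0
    · rw [if_pos hu0] at ad
      have e1 := hf.X_D (c := x + 1) (by omega)
      have e2 := hf.Y_row (x + 1) (by omega)
      have e3 := hf.Y_lt (i := 1) (j := 2 * y + 3) (by omega) (by omega)
      have e4 := hf.D_NE false (c := x + 1) (by omega)
      refine key _ e4 ad ?_ ?_
      · rw [e1, q1]
        unfold gx
        rw [if_neg (by omega)]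
        rfl
      · rw [e2, q2]
        unfold gx
        rw [if_neg (by omega)]
        exact e3
    · rw [if_neg hu0] at ad
      have hSu : Sk π x u := by
        rcases hu2 with h3 | h3
        · omega
        · exact h3
      obtain ⟨r1, r2⟩ := hp x u hx (by omega) hSu (by omega)
      refine key _ (ih u (by omega) (by omega) (by omega) hSu) ad ?_ ?_
      · rw [r1, q1]
      · rw [r2, q2]
        exact gy_lt hf hu1 (by omega)

/-- every unit piece of a row line is contained in an edge with ends in `ZN` -/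
theorem rowZ (x y : ℕ) (h : x + y + π.R + 4 ≤ π.M) :
    ∃ p p', H.Adj p p' ∧ p ∈ ZN κ π ∧ p' ∈ ZN κ π ∧ Y p = gY Y κ y ∧ Y p' = gY Y κ y ∧
      X p ≤ gX X κ x ∧ gX X κ ((x : ℤ) + 1) ≤ X p' := by
  have hM := hd.hg.hM
  have hR := R_pos π
  obtain ⟨v, hv1, hv2, hv3⟩ := exists_next π x y
  have := cov_rowZ hf (nd hd.hg hr hr') (inZ hd.hg) (N := π.M - 2) (by omega)
    (placed_all hd hf hr hr') (i := y) (x0 := x) (x1 := x + 1) (by omega)
    (fun _ => ⟨fun z h1 h2 => by omega, v, by omega, by omega, hv3⟩) (by omega) (by omega)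
  rw [gY_nat, gX_nat]
  have e : ((x : ℤ) + 1) = ((x + 1 : ℕ) : ℤ) := by push_cast; ring
  rw [e, gX_nat]
  exact this

include hs

/-- every unit piece of a column line is contained in an edge with ends in `ZN` -/
theorem colZ (x y : ℕ) (h : x + y + π.R + 4 ≤ π.M) :
    ∃ p p', H.Adj p p' ∧ p ∈ ZN κ π ∧ p' ∈ ZN κ π ∧ X p = gX X κ x ∧ X p' = gX X κ x ∧
      Y p ≤ gY Y κ y ∧ gY Y κ ((y : ℤ) + 1) ≤ Y p' := by
  have hM := hd.hg.hM
  have hR := R_pos π
  obtain ⟨v, hv1, hv2, hv3⟩ := exists_next π y x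
  have := cov_colZ hf (nd hd.hg hr hr') (inZ hd.hg) (N := π.M - 2) (by omega)
    (placed_all hd hf hr hr') (i := x) (y0 := y) (y1 := y + 1) (by omega)
    (fun _ => ⟨fun z h1 h2 => by omega, v, by omega, by omega, (hs _ _).1 hv3⟩) (by omega)
    (by omega)
  rw [gX_nat, gY_nat]
  have e : ((y : ℤ) + 1) = ((y + 1 : ℕ) : ℤ) := by push_cast; ring
  rw [e, gY_nat]
  exact this

/-- the interface -/
theorem net_of : Net H X Y E F κ π where
  hd := hd.hd
  gx_lt := by
    intro i j h1 h2 h3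
    obtain ⟨i', rfl⟩ := Int.eq_ofNat_of_zero_le h1
    obtain ⟨j', rfl⟩ := Int.eq_ofNat_of_zero_le (by omega : 0 ≤ j)
    change gX X κ (i' : ℤ) < gX X κ (j' : ℤ)
    rw [gX_nat, gX_nat]
    exact gx_lt hf (by omega) (by omega)
  gy_lt := by
    intro i j h1 h2 h3
    obtain ⟨i', rfl⟩ := Int.eq_ofNat_of_zero_le h1
    obtain ⟨j', rfl⟩ := Int.eq_ofNat_of_zero_le (by omega : 0 ≤ j)
    change gY Y κ (i' : ℤ) < gY Y κ (j' : ℤ)
    rw [gY_nat, gY_nat]
    exact gy_lt hf (by omega) (by omega)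
  row := by
    intro x y h1 h2 h3
    obtain ⟨x', rfl⟩ := Int.eq_ofNat_of_zero_le h1
    obtain ⟨y', rfl⟩ := Int.eq_ofNat_of_zero_le h2
    obtain ⟨p, p', g1, z, z', g2⟩ := rowZ hd hf hr hr' x' y' (by omega)
    exact ⟨p, p', z, z', g1, g2⟩
  col := by
    intro x y h1 h2 h3
    obtain ⟨x', rfl⟩ := Int.eq_ofNat_of_zero_le h1
    obtain ⟨y', rfl⟩ := Int.eq_ofNat_of_zero_le h2
    obtain ⟨p, p', g1, z, z', g2⟩ := colZ hd hf hr hr' hs x' y' (by omega)
    exact ⟨p, p', z, z', g1, g2⟩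
  pos := by
    intro x y h
    obtain ⟨h1, h2, h3, h4⟩ := h
    have := placed_all hd hf hr hr' x y h1 h2 h4 (by omega)
    rw [gX_nat, gY_nat]
    exact this
  dg := fun x y h1 h2 h3 h4 => hd.hg.adj (.dg x y) ⟨h1, h2, h3, h4⟩ trivial
  px := by
    have hM := hd.hg.hM
    have := hd.hP0 4 (by omega)
    simpa [gX] using this.1
  py := by
    have hM := hd.hg.hM
    have := hd.hP1 4 (by omega)
    simpa [gY] using this.1
  ne := by
    intro i j h1 h2 h3
    have hM := hd.hg.hM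
    have hR := R_pos π
    obtain ⟨x, rfl⟩ := Int.eq_ofNat_of_zero_le h1
    obtain ⟨y, rfl⟩ := Int.eq_ofNat_of_zero_le h2
    obtain ⟨v, hv1, hv2, hv3⟩ := exists_next π y (x + 1)
    have hS := (hs _ _).1 hv3
    have hne := F_NE hd hf hr hr' (x + 1) (by omega) (v + 1) v (by omega) (by omega) (by omega) hS
    obtain ⟨q1, q2⟩ := placed_all hd hf hr hr' (x + 1) v (by omega) (by omega) hS (by omega)
    have g1 := gx_lt hf (x := x) (x' := x + 1) (by omega) (by omega)
    have g2 := gy_lt hf (x := y) (x' := v) (by omega) (by omega)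
    have h4 := hne.2.2
    change gX X κ (x : ℤ) + gY Y κ (y : ℤ) < 1
    rw [gX_nat, gY_nat]
    rw [q1, q2] at h4
    linarith

end

end Pool.Agent.Helper82.DG3
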